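import Pool.Agent.H59.L.S8.Y506.RG.Stm

/-!
# The KLS inequality for generalised Orlicz balls: statements

Project OR. `K = {x ∈ ℝⁿ | ∑ V_i(x_i) ≤ E}` with convex functions `V_i` on the line. See `NOTES.md` in
this folder for the proofs.
-/

set_option autoImplicit false

namespace Pool.Agent.R476.OR

open MeasureTheory Set Filter Topology
open scoped ENNReal InnerProductSpace
open Pool.Agent.W695.KH (Eu)
open Pool.Agent.Y506.RG (ND OB EW VW)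

/-! ### one dimension -/

/-- `C¹` convex function on the line, with derivative `V'` -/
structure CV (V V' : ℝ → ℝ) : Prop where
  der : ∀ t, HasDerivAt V (V' t) t
  mono : Monotone V'
  cont : Continuous V'

/-- `C¹` convex potential of a normalised density -/
structure NV (V V' : ℝ → ℝ) : Prop where
  cv : CV V V'
  nd : ND fun t => Real.exp (-V t)

/-- mean of `V` -/
noncomputable def mV (V : ℝ → ℝ) : ℝ := ∫ t, V t * Real.exp (-V t)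

/-- variance of `V` -/
noncomputable def rV (V : ℝ → ℝ) : ℝ := ∫ t, (V t - mV V) ^ 2 * Real.exp (-V t)

/-- covariance of `V` and the coordinate -/
noncomputable def bV (V : ℝ → ℝ) : ℝ := ∫ t, t * V t * Real.exp (-V t)

/-- the field `v`: `(v f)' = -(V - m) f`, `f = exp (-V)` -/
structure FD (C : ℝ) (V V' v : ℝ → ℝ) : Prop where
  cont : Continuous v
  der : ∀ t, HasDerivAt (fun t => v t * Real.exp (-V t)) (-((V t - mV V) * Real.exp (-V t))) t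
  i1 : Integrable fun t => v t ^ 2 * Real.exp (-V t)
  b1 : ∫ t, v t ^ 2 * Real.exp (-V t) ≤ C * rV V
  i2 : Integrable fun t => (V' t * v t) ^ 2 * Real.exp (-V t)
  b2 : ∫ t, (V' t * v t) ^ 2 * Real.exp (-V t) ≤ C * rV V
  mean : ∫ t, V' t * v t * Real.exp (-V t) = rV V

/-- OR-A -/
def S_FLD : Prop := ∃ C : ℝ, 1 ≤ C ∧ ∀ V V' : ℝ → ℝ, NV V V' →
  (Integrable fun t => V t ^ 4 * Real.exp (-V t)) ∧ ∃ v : ℝ → ℝ, FD C V V' v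

/-! ### products -/

/-- OR-B: second moments of sums of centred functions of single coordinates -/
def S_TWO : Prop := ∀ (n : ℕ) (f φ : Fin n → ℝ → ℝ), (∀ i, Continuous (f i)) →
  (∀ i s, 0 ≤ f i s) → (∀ i, Integrable (f i)) → (∀ i, ∫ s, f i s = 1) →
  (∀ i, Continuous (φ i)) → (∀ i, Integrable fun s => φ i s ^ 2 * f i s) →
  Integrable (fun x : Eu (Fin n) => (∑ i, φ i (x i)) ^ 2 * ∏ i, f i (x i)) ∧
  Integrable (fun x : Eu (Fin n) => (∑ i, φ i (x i) ^ 2) * ∏ i, f i (x i)) ∧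
  (∫ x : Eu (Fin n), (∑ i, φ i (x i) ^ 2) * ∏ i, f i (x i) = ∑ i, ∫ s, φ i s ^ 2 * f i s) ∧
  ((∀ i, ∫ s, φ i s * f i s = 0) →
    ∫ x : Eu (Fin n), (∑ i, φ i (x i)) ^ 2 * ∏ i, f i (x i) = ∑ i, ∫ s, φ i s ^ 2 * f i s)

/-- `∑ V_i(x_i)` -/
noncomputable def SV {n : ℕ} (V : Fin n → ℝ → ℝ) (x : Eu (Fin n)) : ℝ := ∑ i, V i (x i)

/-- `{∑ V_i(x_i) ≤ E}` -/
def KV {n : ℕ} (V : Fin n → ℝ → ℝ) (E : ℝ) : Set (Eu (Fin n)) := {x | SV V x ≤ E}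

/-- the level `E` is optimal for the weight `exp (-s)` -/
structure LVL {n : ℕ} (V : Fin n → ℝ → ℝ) (E : ℝ) : Prop where
  bdd : Bornology.IsBounded (KV V E)
  pos : 0 < volume (KV V E)
  opt : ∀ s : ℝ, volume (KV V s) * ENNReal.ofReal (Real.exp (-s)) ≤
    volume (KV V E) * ENNReal.ofReal (Real.exp (-E))

/-- `1 + ∑ Var V_i` -/
noncomputable def sg {n : ℕ} (V : Fin n → ℝ → ℝ) : ℝ := 1 + ∑ i, rV (V i)

/-- the vector of the covariances of `V_i` and `x_i` -/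
noncomputable def bb {n : ℕ} (V : Fin n → ℝ → ℝ) : Eu (Fin n) := WithLp.toLp 2 fun i => bV (V i)

/-- logistic function -/
noncomputable def sgm (r : ℝ) : ℝ := 1 / (1 + Real.exp (-r))

/-- its derivative -/
noncomputable def sgd (r : ℝ) : ℝ := Real.exp (-r) / (1 + Real.exp (-r)) ^ 2

/-- OR-C: integration by parts -/
def S_IBP : Prop := ∀ (n : ℕ) (C : ℝ) (V V' v : Fin n → ℝ → ℝ), (∀ i, NV (V i) (V' i)) →
  (∀ i, Integrable fun t => V i t ^ 4 * Real.exp (-V i t)) →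
  (∀ i, FD C (V i) (V' i) (v i)) → ∀ (U : Eu (Fin n) → ℝ) (B l E : ℝ), ContDiff ℝ 1 U →
  (∀ x, |U x| ≤ B) → (∀ x, ‖fderiv ℝ U x‖ ≤ l) →
  ∫ x, U x * sgd (SV V x - E) * (∑ i, V' i (x i) * v i (x i)) * Real.exp (-SV V x) =
  (∫ x, U x * sgm (SV V x - E) * (SV V x - ∑ i, mV (V i)) * Real.exp (-SV V x)) -
  ∫ x, sgm (SV V x - E) * fderiv ℝ U x (WithLp.toLp 2 fun i => v i (x i)) * Real.exp (-SV V x)

/-- OR-D: lower bound for the volume of the optimal sublevel set -/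
def S_PLW : Prop := ∃ c : ℝ, 0 < c ∧ ∀ (n : ℕ) (V V' : Fin n → ℝ → ℝ), (∀ i, NV (V i) (V' i)) →
  (∀ i, Integrable fun t => V i t ^ 4 * Real.exp (-V i t)) → ∀ E : ℝ, LVL V E →
  c ≤ Real.sqrt (sg V) * ((volume (KV V E)).toReal * Real.exp (-E))

/-- indicator function of a set, as a weight -/
noncomputable def ind {n : ℕ} (K : Set (Eu (Fin n))) : Eu (Fin n) → ℝ := K.indicator fun _ => 1

/-- OR-E: covariance of the uniform measure on the sublevel set -/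
def S_COV : Prop := ∃ c C : ℝ, 0 < c ∧ 0 < C ∧ ∀ (n : ℕ) (V V' : Fin n → ℝ → ℝ),
  (∀ i, NV (V i) (V' i)) → (∀ i, Integrable fun t => V i t ^ 4 * Real.exp (-V i t)) →
  ∀ E : ℝ, LVL V E → ∀ θ : Eu (Fin n),
  c * (‖θ‖ ^ 2 - ⟪bb V, θ⟫_ℝ ^ 2 / sg V) ≤ VW (ind (KV V E)) (fun x => ⟪x, θ⟫_ℝ) ∧
  (⟪bb V, θ⟫_ℝ = 0 → VW (ind (KV V E)) (fun x => ⟪x, θ⟫_ℝ) ≤ C * ‖θ‖ ^ 2)

/-- fourth moments for log-concave weights (known, `Y252.PV.M4`) -/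
def S_M4R : Prop := ∃ C : ℝ, 1 ≤ C ∧ ∀ (n : ℕ) (w : Eu (Fin n) → ℝ), (∀ x, 0 ≤ w x) →
  Measurable w → Integrable (fun x => (1 + ‖x‖ ^ 2) * w x) → 0 < ∫ x, w x →
  (∀ x y, ∀ t : ℝ, 0 < t → t < 1 → w x ^ (1 - t) * w y ^ t ≤ w ((1 - t) • x + t • y)) →
  ∀ θ : Eu (Fin n), Integrable (fun x => (⟪x, θ⟫_ℝ - EW w fun x => ⟪x, θ⟫_ℝ) ^ 4 * w x) ∧
  EW w (fun x => (⟪x, θ⟫_ℝ - EW w fun x => ⟪x, θ⟫_ℝ) ^ 4) ≤ C * (VW w fun x => ⟪x, θ⟫_ℝ) ^ 2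

/-! ### normalisation -/

/-- OR-F: every level of every sum is an optimal level of a normalised sum in other coordinates -/
def S_NRM : Prop := ∀ (n : ℕ) (V V' : Fin n → ℝ → ℝ), 1 ≤ n → (∀ i, CV (V i) (V' i)) → ∀ E : ℝ,
  Bornology.IsBounded (KV V E) → (∃ x, SV V x < E) →
  ∃ (W W' : Fin n → ℝ → ℝ) (E' : ℝ) (a d : Fin n → ℝ), (∀ i, NV (W i) (W' i)) ∧ LVL W E' ∧
  (∀ i, 0 < d i) ∧ ∀ x : Eu (Fin n), x ∈ KV W E' ↔ WithLp.toLp 2 (fun i => a i + d i * x i) ∈ KV V E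

/-- concentration of Lipschitz functions for linear images (the same as `Y506.PV.CcW`) -/
def Cc {n : ℕ} (κ δ : ℝ) (w : Eu (Fin n) → ℝ) : Prop :=
  ∀ k : ℕ, k ≤ n → ∀ (T : Eu (Fin n) →ₗ[ℝ] Eu (Fin k)) (s : ℝ), 0 < s →
  (∀ θ : Eu (Fin k), ‖θ‖ = 1 → VW w (fun x => ⟪T x, θ⟫_ℝ) ≤ s) →
  ∀ v : Eu (Fin k) → ℝ, ContDiff ℝ 1 v → (∀ y, |v y| ≤ 1) →
  (∀ y, ‖fderiv ℝ v y‖ ≤ κ / Real.sqrt s) → VW w (fun x => v (T x)) ≤ δ

/-- limits (the same as `Y506.PV.S_LIMC`, known) -/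
def S_LIMC : Prop := ∀ (n : ℕ) (κ δ : ℝ) (w : Eu (Fin n) → ℝ) (W : ℕ → Eu (Fin n) → ℝ), 0 < κ →
  Integrable (fun x => (1 + ‖x‖ ^ 2) * w x) → 0 < ∫ x, w x →
  (∀ j, Integrable (fun x => (1 + ‖x‖ ^ 2) * W j x)) →
  Tendsto (fun j => ∫ x, (1 + ‖x‖ ^ 2) * |W j x - w x|) atTop (𝓝 0) →
  (∀ᶠ j in atTop, Cc κ δ (W j)) → Cc (κ / 2) δ w

/-- OR-G: from `C¹` convex functions to convex functions -/
def S_APX : Prop := ∀ (κ δ : ℝ), 0 < κ →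
  (∀ (n : ℕ) (V V' : Fin n → ℝ → ℝ), 1 ≤ n → (∀ i, CV (V i) (V' i)) → ∀ E : ℝ,
    Bornology.IsBounded (KV V E) → (∃ x, SV V x < E) → Cc κ δ (ind (KV V E))) →
  ∀ (n : ℕ) (V : Fin n → ℝ → ℝ), 1 ≤ n → (∀ i, ConvexOn ℝ univ (V i)) → ∀ E : ℝ,
    Bornology.IsBounded (KV V E) → (∃ x, SV V x < E) → Cc (κ / 2) δ (ind (KV V E))

/-- OR-H: with constraints `x_i ∈ I_i` -/
def S_APY : Prop := ∀ (κ δ : ℝ), 0 < κ →
  (∀ (n : ℕ) (V : Fin n → ℝ → ℝ), 1 ≤ n → (∀ i, ConvexOn ℝ univ (V i)) → ∀ E : ℝ,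
    Bornology.IsBounded (KV V E) → (∃ x, SV V x < E) → Cc κ δ (ind (KV V E))) →
  ∀ (n : ℕ) (V : Fin n → ℝ → ℝ) (I : Fin n → Set ℝ), 1 ≤ n → (∀ i, ConvexOn ℝ univ (V i)) →
    (∀ i, IsClosed (I i)) → (∀ i, (I i).OrdConnected) → ∀ E : ℝ,
    Bornology.IsBounded (KV V E ∩ {x | ∀ i, x i ∈ I i}) →
    (∃ x, SV V x < E ∧ ∀ i, x i ∈ interior (I i)) →
    Cc (κ / 2) δ (ind (KV V E ∩ {x | ∀ i, x i ∈ I i}))

/-! ### assembly -/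

/-- OR-I: the main inequality -/
def S_STI : Prop := ∃ C : ℝ, 1 ≤ C ∧ ∀ (n : ℕ) (V V' : Fin n → ℝ → ℝ), (∀ i, NV (V i) (V' i)) →
  ∀ E : ℝ, LVL V E → ∀ (U : Eu (Fin n) → ℝ) (l η : ℝ), ContDiff ℝ 1 U → (∀ x, 0 ≤ U x) →
  (∀ x, U x ≤ 4) → 0 ≤ l → (∀ x, ‖fderiv ℝ U x‖ ≤ l) → 0 ≤ η → η ≤ 1 →
  ∫ x, U x * Real.exp (-SV V x) ≤ η ^ 2 →
  ∫ x in KV V E, U x ≤ C * (η + l) * (volume (KV V E)).toReal

/-- OR-J: concentration for normalised sums at optimal levels -/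
def S_CCN : Prop := ∀ δ : ℝ, 0 < δ → ∃ κ : ℝ, 0 < κ ∧ ∀ (n : ℕ) (V V' : Fin n → ℝ → ℝ),
  (∀ i, NV (V i) (V' i)) → ∀ E : ℝ, LVL V E → Cc κ δ (ind (KV V E))

/-- OR-K: concentration for `C¹` sums -/
def S_CCG : Prop := ∀ δ : ℝ, 0 < δ → ∃ κ : ℝ, 0 < κ ∧ ∀ (n : ℕ) (V V' : Fin n → ℝ → ℝ), 1 ≤ n →
  (∀ i, CV (V i) (V' i)) → ∀ E : ℝ, Bornology.IsBounded (KV V E) → (∃ x, SV V x < E) →
  Cc κ δ (ind (KV V E))

end Pool.Agent.R476.OR
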